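import Pool.Agent.H20.RM.RowB
import Pool.Agent.H34.RM.Rows2

/-!
Row B3: truncated Cauchy-Schwarz.
-/

open Finset

namespace Pool.Agent.H20.RM

open Pool.Agent.H92 Pool.Agent.H34.RM

/-- ROW B3. -/
theorem rowB3 : RowB3 := by
  intro V _ A X Y nu T pi t0 hnu hA0 hA1 hT0 hpi hpi1 ht0
  set K := ∑ x ∈ X, ∑ x' ∈ X, pi x * pi x' * |∑ y ∈ Y, nu y * (A x y * A x' y)
            - (∑ y ∈ Y, nu y * A x y) * ∑ y ∈ Y, nu y * A x' y| with hK
  set T1 : V → ℝ := fun y => if t0 < T y then 0 else T y with hT1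
  set T2 : V → ℝ := fun y => if t0 < T y then T y else 0 with hT2
  have hsplit : ∀ y, T y = T1 y + T2 y := by
    intro y
    by_cases h : t0 < T y <;> simp [hT1, hT2, h]
  have hT20 : ∀ y, 0 ≤ T2 y := by
    intro y
    by_cases h : t0 < T y <;> simp [hT2, h, hT0 y]
  have hT1b : ∀ y, 0 ≤ T1 y ∧ T1 y ≤ t0 := by
    intro y
    by_cases h : t0 < T y
    · simp [hT1, h, ht0]
    · simp only [hT1, h, if_false]
      exact ⟨hT0 y, not_lt.mp h⟩
  have hm : ∀ x, 0 ≤ ∑ y ∈ Y, nu y * A x y ∧ ∑ y ∈ Y, nu y * A x y ≤ 1 := by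
    intro x
    constructor
    · exact Finset.sum_nonneg fun y _ => mul_nonneg (hnu.nonneg y) (hA0 x y)
    · calc ∑ y ∈ Y, nu y * A x y ≤ ∑ y ∈ Y, nu y * 1 :=
            Finset.sum_le_sum fun y _ => mul_le_mul_of_nonneg_left (hA1 x y) (hnu.nonneg y)
        _ = 1 := by simp [hnu.sum]
  -- the part T1
  have h1 := rowB2 V A X Y nu T1 pi hnu hpi
  have hK0 : 0 ≤ K := Finset.sum_nonneg fun x hx => Finset.sum_nonneg fun x' hx' =>
    mul_nonneg (mul_nonneg (hpi x hx) (hpi x' hx')) (abs_nonneg _)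
  have hvar : ∑ y ∈ Y, nu y * (T1 y) ^ 2 - (∑ y ∈ Y, nu y * T1 y) ^ 2 ≤ t0 ^ 2 := by
    have : ∑ y ∈ Y, nu y * (T1 y) ^ 2 ≤ t0 ^ 2 := by
      calc ∑ y ∈ Y, nu y * (T1 y) ^ 2 ≤ ∑ y ∈ Y, nu y * t0 ^ 2 :=
            Finset.sum_le_sum fun y _ => mul_le_mul_of_nonneg_left
              (pow_le_pow_left₀ (hT1b y).1 (hT1b y).2 2) (hnu.nonneg y)
        _ = t0 ^ 2 := by rw [← Finset.sum_mul, hnu.sum, one_mul]
    nlinarith [sq_nonneg (∑ y ∈ Y, nu y * T1 y)]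
  have h1' : ∑ x ∈ X, pi x * |∑ y ∈ Y, nu y * (A x y * T1 y)
          - (∑ y ∈ Y, nu y * A x y) * ∑ y ∈ Y, nu y * T1 y| ≤ t0 * Real.sqrt K := by
    have hb : (∑ x ∈ X, pi x * |∑ y ∈ Y, nu y * (A x y * T1 y)
          - (∑ y ∈ Y, nu y * A x y) * ∑ y ∈ Y, nu y * T1 y|) ^ 2 ≤ (t0 * Real.sqrt K) ^ 2 := by
      calc _ ≤ K * (∑ y ∈ Y, nu y * (T1 y) ^ 2 - (∑ y ∈ Y, nu y * T1 y) ^ 2) := h1
        _ ≤ K * t0 ^ 2 := mul_le_mul_of_nonneg_left hvar hK0
        _ = _ := by rw [mul_pow, Real.sq_sqrt hK0]; ring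
    exact (sq_le_sq₀ (Finset.sum_nonneg fun x hx => mul_nonneg (hpi x hx) (abs_nonneg _))
      (by positivity)).mp hb
  -- the part T2
  have h2 : ∀ x ∈ X, |∑ y ∈ Y, nu y * (A x y * T2 y)
          - (∑ y ∈ Y, nu y * A x y) * ∑ y ∈ Y, nu y * T2 y| ≤ ∑ y ∈ Y, nu y * T2 y := by
    intro x _
    have e : ∑ y ∈ Y, nu y * (A x y * T2 y)
          - (∑ y ∈ Y, nu y * A x y) * ∑ y ∈ Y, nu y * T2 y
        = ∑ y ∈ Y, nu y * ((A x y - ∑ y ∈ Y, nu y * A x y) * T2 y) := by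
      rw [Finset.mul_sum, ← Finset.sum_sub_distrib]
      exact Finset.sum_congr rfl fun y _ => by ring
    rw [e]
    refine (Finset.abs_sum_le_sum_abs _ _).trans (Finset.sum_le_sum fun y _ => ?_)
    rw [abs_mul, abs_mul, abs_of_nonneg (hnu.nonneg y), abs_of_nonneg (hT20 y)]
    refine mul_le_mul_of_nonneg_left ?_ (hnu.nonneg y)
    refine mul_le_of_le_one_left (hT20 y) ?_
    rw [abs_le]
    have h3 := hm x
    have h4 := hA0 x y
    have h5 := hA1 x y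
    constructor <;> linarith [h3.1, h3.2]
  calc ∑ x ∈ X, pi x * |∑ y ∈ Y, nu y * (A x y * T y)
          - (∑ y ∈ Y, nu y * A x y) * ∑ y ∈ Y, nu y * T y|
      ≤ ∑ x ∈ X, (pi x * |∑ y ∈ Y, nu y * (A x y * T1 y)
          - (∑ y ∈ Y, nu y * A x y) * ∑ y ∈ Y, nu y * T1 y|
          + pi x * ∑ y ∈ Y, nu y * T2 y) := by
        refine Finset.sum_le_sum fun x hx => ?_
        rw [← mul_add]
        refine mul_le_mul_of_nonneg_left ?_ (hpi x hx)
        have e : ∑ y ∈ Y, nu y * (A x y * T y)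
              - (∑ y ∈ Y, nu y * A x y) * ∑ y ∈ Y, nu y * T y
            = (∑ y ∈ Y, nu y * (A x y * T1 y)
              - (∑ y ∈ Y, nu y * A x y) * ∑ y ∈ Y, nu y * T1 y)
              + (∑ y ∈ Y, nu y * (A x y * T2 y)
              - (∑ y ∈ Y, nu y * A x y) * ∑ y ∈ Y, nu y * T2 y) := by
          have e1 : ∑ y ∈ Y, nu y * (A x y * T y)
              = ∑ y ∈ Y, nu y * (A x y * T1 y) + ∑ y ∈ Y, nu y * (A x y * T2 y) := by
            rw [← Finset.sum_add_distrib]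
            exact Finset.sum_congr rfl fun y _ => by rw [hsplit y]; ring
          have e2 : ∑ y ∈ Y, nu y * T y
              = ∑ y ∈ Y, nu y * T1 y + ∑ y ∈ Y, nu y * T2 y := by
            rw [← Finset.sum_add_distrib]
            exact Finset.sum_congr rfl fun y _ => by rw [hsplit y]; ring
          rw [e1, e2]
          ring
        rw [e]
        exact (abs_add_le _ _).trans (add_le_add le_rfl (h2 x hx))
    _ = ∑ x ∈ X, pi x * |∑ y ∈ Y, nu y * (A x y * T1 y)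
          - (∑ y ∈ Y, nu y * A x y) * ∑ y ∈ Y, nu y * T1 y|
          + ∑ y ∈ Y, nu y * T2 y := by
        rw [Finset.sum_add_distrib, ← Finset.sum_mul, hpi1, one_mul]
    _ ≤ _ := add_le_add h1' le_rfl

end Pool.Agent.H20.RM
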