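import Pool.Agent.H34.RM.Rows

/-!
Row B: Schur positivity of the products of the two covariance kernels.
Row B2: Cauchy-Schwarz for covariances.
-/

open Finset

namespace Pool.Agent.H20.RM

open Pool.Agent.H92 Pool.Agent.H34.RM

/-- covariance as a centred sum -/
theorem cov_eq {V : Type} [DecidableEq V] (Y : Finset V) (nu f g : V → ℝ)
    (h1 : ∑ y ∈ Y, nu y = 1) :
    ∑ y ∈ Y, nu y * (f y * g y) - (∑ y ∈ Y, nu y * f y) * ∑ y ∈ Y, nu y * g y
      = ∑ y ∈ Y, nu y * ((f y - ∑ y ∈ Y, nu y * f y) * (g y - ∑ y ∈ Y, nu y * g y)) := by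
  set F := ∑ y ∈ Y, nu y * f y with hF
  set H := ∑ y ∈ Y, nu y * g y with hH
  have e : ∀ y, nu y * ((f y - F) * (g y - H))
      = nu y * (f y * g y) - H * (nu y * f y) - F * (nu y * g y) + F * H * nu y := by
    intro y; ring
  rw [Finset.sum_congr rfl (fun y _ => e y), Finset.sum_add_distrib, Finset.sum_sub_distrib,
    Finset.sum_sub_distrib, ← Finset.mul_sum, ← Finset.mul_sum, ← Finset.mul_sum, ← hF, ← hH, h1]
  ring

/-- product of a positive kernel with a Gram kernel -/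
theorem gram_step {V : Type} [DecidableEq V] (X Y : Finset V) (nu : V → ℝ) (h0 : ∀ y, 0 ≤ nu y)
    (A : V → V → ℝ) (K : V → V → ℝ)
    (hK : ∀ φ : V → ℝ, 0 ≤ ∑ x ∈ X, ∑ x' ∈ X, φ x * φ x' * K x x') :
    ∀ φ : V → ℝ, 0 ≤ ∑ x ∈ X, ∑ x' ∈ X,
      φ x * φ x' * (K x x' * ∑ y ∈ Y, nu y * (A x y * A x' y)) := by
  intro φ
  have e : ∑ x ∈ X, ∑ x' ∈ X, φ x * φ x' * (K x x' * ∑ y ∈ Y, nu y * (A x y * A x' y))
      = ∑ y ∈ Y, nu y * ∑ x ∈ X, ∑ x' ∈ X, (φ x * A x y) * (φ x' * A x' y) * K x x' := by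
    calc ∑ x ∈ X, ∑ x' ∈ X, φ x * φ x' * (K x x' * ∑ y ∈ Y, nu y * (A x y * A x' y))
        = ∑ x ∈ X, ∑ x' ∈ X, ∑ y ∈ Y,
            nu y * ((φ x * A x y) * (φ x' * A x' y) * K x x') := by
          refine Finset.sum_congr rfl fun x _ => Finset.sum_congr rfl fun x' _ => ?_
          rw [Finset.mul_sum, Finset.mul_sum]
          exact Finset.sum_congr rfl fun y _ => by ring
      _ = ∑ x ∈ X, ∑ y ∈ Y, ∑ x' ∈ X,
            nu y * ((φ x * A x y) * (φ x' * A x' y) * K x x') :=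
          Finset.sum_congr rfl fun x _ => Finset.sum_comm
      _ = ∑ y ∈ Y, ∑ x ∈ X, ∑ x' ∈ X,
            nu y * ((φ x * A x y) * (φ x' * A x' y) * K x x') := Finset.sum_comm
      _ = _ := by
          refine Finset.sum_congr rfl fun y _ => ?_
          rw [Finset.mul_sum]
          exact Finset.sum_congr rfl fun x _ => by rw [Finset.mul_sum]
  rw [e]
  exact Finset.sum_nonneg fun y _ => mul_nonneg (h0 y) (hK fun x => φ x * A x y)

/-- red covariance kernel as a Gram kernel -/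
theorem KR_eq {V : Type} [DecidableEq V] (G : SimpleGraph V) [DecidableRel G.Adj]
    (Y : Finset V) (nu : V → ℝ) (h : IsProb Y nu) (x x' : V) :
    KR G Y nu x x' = ∑ y ∈ Y, nu y *
      ((rI G x y - dR G Y nu x) * (rI G x' y - dR G Y nu x')) := by
  rw [KR, dR, dR]
  exact cov_eq Y nu _ _ h.sum

/-- blue covariance kernel as a Gram kernel -/
theorem KB_eq {V : Type} [DecidableEq V] (G : SimpleGraph V) [DecidableRel G.Adj]
    (Y : Finset V) (nu : V → ℝ) (h : IsProb Y nu) (x x' : V) :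
    KB G Y nu x x' = ∑ y ∈ Y, nu y *
      ((bI G x y - dB G Y nu x) * (bI G x' y - dB G Y nu x')) := by
  rw [KB, dB, dB]
  exact cov_eq Y nu _ _ h.sum

/-- ROW B. -/
theorem rowB : RowB := by
  intro V _ G _ X Y Z nu ze hnu hze
  have base : ∀ i : ℕ, ∀ φ : V → ℝ,
      0 ≤ ∑ x ∈ X, ∑ x' ∈ X, φ x * φ x' * (KR G Y nu x x' ^ i) := by
    intro i
    induction i with
    | zero =>
      intro φ
      have : ∑ x ∈ X, ∑ x' ∈ X, φ x * φ x' * (KR G Y nu x x' ^ 0)
          = (∑ x ∈ X, φ x) * ∑ x' ∈ X, φ x' := by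
        rw [Finset.sum_mul_sum]
        simp
      rw [this]
      exact mul_self_nonneg _
    | succ i ih =>
      intro φ
      have := gram_step X Y nu hnu.nonneg (fun x y => rI G x y - dR G Y nu x)
        (fun x x' => KR G Y nu x x' ^ i) ih φ
      refine this.trans_eq ?_
      refine Finset.sum_congr rfl fun x _ => Finset.sum_congr rfl fun x' _ => ?_
      rw [pow_succ]
      nth_rw 3 [KR_eq G Y nu hnu x x']
  intro φ i j
  revert φ
  induction j with
  | zero =>
    intro φ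
    refine (base i φ).trans_eq ?_
    simp
  | succ j ih =>
    intro φ
    have := gram_step X Z ze hze.nonneg (fun x y => bI G x y - dB G Z ze x)
      (fun x x' => KR G Y nu x x' ^ i * KB G Z ze x x' ^ j) ih φ
    refine this.trans_eq ?_
    refine Finset.sum_congr rfl fun x _ => Finset.sum_congr rfl fun x' _ => ?_
    have e := KB_eq G Z ze hze x x'
    rw [← e]
    ring

/-- Cauchy-Schwarz with a weight -/
theorem cs_weight {V : Type} (Y : Finset V) (nu f g : V → ℝ) (h0 : ∀ y, 0 ≤ nu y) :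
    (∑ y ∈ Y, nu y * (f y * g y)) ^ 2
      ≤ (∑ y ∈ Y, nu y * (f y * f y)) * ∑ y ∈ Y, nu y * (g y * g y) := by
  have := Finset.sum_mul_sq_le_sq_mul_sq Y (fun y => Real.sqrt (nu y) * f y)
    (fun y => Real.sqrt (nu y) * g y)
  have e1 : ∀ y, Real.sqrt (nu y) * f y * (Real.sqrt (nu y) * g y) = nu y * (f y * g y) := by
    intro y
    have := Real.mul_self_sqrt (h0 y)
    calc _ = (Real.sqrt (nu y) * Real.sqrt (nu y)) * (f y * g y) := by ring
      _ = _ := by rw [this]
  have e2 : ∀ y, (Real.sqrt (nu y) * f y) ^ 2 = nu y * (f y * f y) := by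
    intro y
    have := Real.mul_self_sqrt (h0 y)
    calc _ = (Real.sqrt (nu y) * Real.sqrt (nu y)) * (f y * f y) := by ring
      _ = _ := by rw [this]
  have e3 : ∀ y, (Real.sqrt (nu y) * g y) ^ 2 = nu y * (g y * g y) := by
    intro y
    have := Real.mul_self_sqrt (h0 y)
    calc _ = (Real.sqrt (nu y) * Real.sqrt (nu y)) * (g y * g y) := by ring
      _ = _ := by rw [this]
  simpa only [e1, e2, e3] using this

/-- ROW B2. -/
theorem rowB2 : RowB2 := by
  intro V _ A X Y nu T pi hnu hpi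
  set m : V → ℝ := fun x => ∑ y ∈ Y, nu y * A x y with hm
  set tb := ∑ y ∈ Y, nu y * T y with htb
  set r : V → ℝ := fun x => ∑ y ∈ Y, nu y * (A x y * T y) - m x * tb with hr
  -- signs
  set s : V → ℝ := fun x => if 0 ≤ r x then 1 else -1 with hs
  have hsr : ∀ x, |r x| = s x * r x := by
    intro x
    by_cases h : 0 ≤ r x
    · simp [hs, h, abs_of_nonneg h]
    · simp [hs, h, abs_of_neg (not_le.mp h)]
  have hs1 : ∀ x x', s x * s x' ≤ 1 ∧ -1 ≤ s x * s x' := by
    intro x x'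
    by_cases h : 0 ≤ r x <;> by_cases h' : 0 ≤ r x' <;> simp [hs, h, h']
  -- centred representation
  have hc : ∀ x, r x = ∑ y ∈ Y, nu y * ((A x y - m x) * (T y - tb)) := by
    intro x
    exact cov_eq Y nu (A x) T hnu.sum
  have hsum : ∑ x ∈ X, pi x * |r x|
      = ∑ y ∈ Y, nu y * ((∑ x ∈ X, pi x * s x * (A x y - m x)) * (T y - tb)) := by
    calc ∑ x ∈ X, pi x * |r x|
        = ∑ x ∈ X, ∑ y ∈ Y, nu y * ((pi x * s x * (A x y - m x)) * (T y - tb)) := by
          refine Finset.sum_congr rfl fun x _ => ?_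
          rw [hsr x, hc x, Finset.mul_sum, Finset.mul_sum]
          exact Finset.sum_congr rfl fun y _ => by ring
      _ = ∑ y ∈ Y, ∑ x ∈ X, nu y * ((pi x * s x * (A x y - m x)) * (T y - tb)) :=
          Finset.sum_comm
      _ = _ := by
          refine Finset.sum_congr rfl fun y _ => ?_
          rw [← Finset.mul_sum, ← Finset.sum_mul]
  have hcs := cs_weight Y nu (fun y => ∑ x ∈ X, pi x * s x * (A x y - m x))
    (fun y => T y - tb) hnu.nonneg
  -- variance of h
  have hvar : ∑ y ∈ Y, nu y * ((∑ x ∈ X, pi x * s x * (A x y - m x))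
        * (∑ x ∈ X, pi x * s x * (A x y - m x)))
      = ∑ x ∈ X, ∑ x' ∈ X, pi x * pi x' * (s x * s x')
          * (∑ y ∈ Y, nu y * (A x y * A x' y) - m x * ∑ y ∈ Y, nu y * A x' y) := by
    calc _ = ∑ y ∈ Y, ∑ x ∈ X, ∑ x' ∈ X,
            nu y * ((pi x * s x * (A x y - m x)) * (pi x' * s x' * (A x' y - m x'))) := by
          refine Finset.sum_congr rfl fun y _ => ?_
          rw [Finset.sum_mul_sum, Finset.mul_sum]
          exact Finset.sum_congr rfl fun x _ => by rw [Finset.mul_sum]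
      _ = ∑ x ∈ X, ∑ y ∈ Y, ∑ x' ∈ X,
            nu y * ((pi x * s x * (A x y - m x)) * (pi x' * s x' * (A x' y - m x'))) :=
          Finset.sum_comm
      _ = ∑ x ∈ X, ∑ x' ∈ X, ∑ y ∈ Y,
            nu y * ((pi x * s x * (A x y - m x)) * (pi x' * s x' * (A x' y - m x'))) :=
          Finset.sum_congr rfl fun x _ => Finset.sum_comm
      _ = _ := by
          refine Finset.sum_congr rfl fun x _ => Finset.sum_congr rfl fun x' _ => ?_
          rw [cov_eq Y nu (A x) (A x') hnu.sum, Finset.mul_sum]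
          exact Finset.sum_congr rfl fun y _ => by ring
  have hvar' : ∑ y ∈ Y, nu y * ((∑ x ∈ X, pi x * s x * (A x y - m x))
        * (∑ x ∈ X, pi x * s x * (A x y - m x)))
      ≤ ∑ x ∈ X, ∑ x' ∈ X, pi x * pi x' * |∑ y ∈ Y, nu y * (A x y * A x' y)
            - m x * ∑ y ∈ Y, nu y * A x' y| := by
    rw [hvar]
    refine Finset.sum_le_sum fun x hx => Finset.sum_le_sum fun x' hx' => ?_
    rw [mul_assoc]
    refine mul_le_mul_of_nonneg_left ?_ (mul_nonneg (hpi x hx) (hpi x' hx'))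
    set C := ∑ y ∈ Y, nu y * (A x y * A x' y) - m x * ∑ y ∈ Y, nu y * A x' y
    refine (le_abs_self _).trans ?_
    rw [abs_mul]
    have : |s x * s x'| ≤ 1 := abs_le.mpr ⟨(hs1 x x').2, (hs1 x x').1⟩
    exact mul_le_of_le_one_left (abs_nonneg C) this
  have hT : ∑ y ∈ Y, nu y * ((T y - tb) * (T y - tb))
      = ∑ y ∈ Y, nu y * (T y) ^ 2 - tb ^ 2 := by
    have := cov_eq Y nu T T hnu.sum
    rw [← htb] at this
    rw [← this, sq]
    congr 1
    exact Finset.sum_congr rfl fun y _ => by ring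
  have h0 : 0 ≤ ∑ y ∈ Y, nu y * (T y) ^ 2 - tb ^ 2 := by
    rw [← hT]
    exact Finset.sum_nonneg fun y _ => mul_nonneg (hnu.nonneg y) (mul_self_nonneg _)
  calc (∑ x ∈ X, pi x * |r x|) ^ 2
      ≤ (∑ y ∈ Y, nu y * ((∑ x ∈ X, pi x * s x * (A x y - m x))
          * (∑ x ∈ X, pi x * s x * (A x y - m x))))
          * ∑ y ∈ Y, nu y * ((T y - tb) * (T y - tb)) := by
        rw [hsum]; exact hcs
    _ ≤ _ := by
        rw [hT]
        exact mul_le_mul_of_nonneg_right hvar' h0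

end Pool.Agent.H20.RM
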