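import Pool.Agent.H20.RM.F1
import Pool.Agent.H74.RM.F2

/-!
F3: at a maximiser the covariances of the neighbourhoods with the Renyi density are small on average.
-/

open Finset

set_option linter.unusedSectionVars false

namespace Pool.Agent.H20.RM

open Pool.Agent.H92 Pool.Agent.H34.RM

/-- `K (1 + log w)^2 ≤ w` for large `w` -/
theorem log_sq_le (K : ℝ) : ∃ W : ℕ, 1 ≤ W ∧ ∀ w : ℕ, W ≤ w → K * (1 + Real.log w) ^ 2 ≤ w := by
  obtain ⟨W, hW⟩ := exists_nat_ge ((16 * |K|) ^ 2)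
  refine ⟨W + 1, by omega, fun w hw => ?_⟩
  have hw1 : (1 : ℝ) ≤ w := by exact_mod_cast (by omega : 1 ≤ w)
  have hw0 : (0 : ℝ) < w := by linarith
  have hWw : (16 * |K|) ^ 2 ≤ (w : ℝ) :=
    hW.trans (by exact_mod_cast (by omega : W ≤ w))
  set s := Real.sqrt w with hs
  set r := Real.sqrt s with hr
  have hs2 : s * s = w := Real.mul_self_sqrt hw0.le
  have hs0 : 0 < s := Real.sqrt_pos.mpr hw0
  have hr2 : r * r = s := Real.mul_self_sqrt hs0.le
  have hr0 : 0 < r := Real.sqrt_pos.mpr hs0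
  have hlog : Real.log w = 4 * Real.log r := by
    rw [← hs2, ← hr2, Real.log_mul (by positivity) (by positivity),
      Real.log_mul hr0.ne' hr0.ne']
    ring
  have hl : Real.log r ≤ r - 1 := Real.log_le_sub_one_of_pos hr0
  have hl0 : 0 ≤ Real.log w := Real.log_nonneg hw1
  have h1 : 1 + Real.log w ≤ 4 * r := by rw [hlog]; linarith
  have h2 : (1 + Real.log w) ^ 2 ≤ 16 * s := by
    calc (1 + Real.log w) ^ 2 ≤ (4 * r) ^ 2 := pow_le_pow_left₀ (by linarith) h1 2
      _ = 16 * s := by rw [← hr2]; ring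
  have h3 : 16 * |K| ≤ s := by
    rw [hs]
    exact Real.le_sqrt_of_sq_le hWw
  calc K * (1 + Real.log w) ^ 2 ≤ |K| * (1 + Real.log w) ^ 2 :=
        mul_le_mul_of_nonneg_right (le_abs_self K) (sq_nonneg _)
    _ ≤ |K| * (16 * s) := mul_le_mul_of_nonneg_left h2 (abs_nonneg K)
    _ = (16 * |K|) * s := by ring
    _ ≤ s * s := mul_le_mul_of_nonneg_right h3 hs0.le
    _ = w := hs2

/-- the arithmetic of F3 -/
theorem f3_arith {C0 K ε : ℝ} (hC : 0 < C0) (hK : 0 ≤ K) (hε : 0 < ε) :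
    ∃ (e1 : ℝ) (W : ℕ), 0 < e1 ∧ 1 ≤ W ∧ ∀ (w : ℕ) (em : ℝ), W ≤ w → 0 < em → em ≤ 1 →
      Real.log (1 / em) ≤ e1 * w →
      C0 * (1 + Real.log (w * (2 / em))) ≤ w ∧
        K * em * (1 + Real.log (w * (2 / em))) ^ 2 ≤ ε ^ 2 * w := by
  obtain ⟨W1, hW1, h1⟩ := log_sq_le (4 * C0)
  obtain ⟨W2, hW2, h2⟩ := log_sq_le (16 * K / ε ^ 2)
  refine ⟨1 / (2 * C0), max W1 W2, by positivity, le_trans hW1 (le_max_left _ _), ?_⟩
  intro w em hw hem hem1 hlog
  have hw1 : (1 : ℝ) ≤ w := by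
    exact_mod_cast (hW1.trans ((le_max_left _ _).trans hw))
  have hw0 : (0 : ℝ) < w := by linarith
  have a1 := h1 w ((le_max_left _ _).trans hw)
  have a2 := h2 w ((le_max_right _ _).trans hw)
  have hl0 : 0 ≤ Real.log w := Real.log_nonneg hw1
  set L := Real.log (1 / em) with hL
  have hL0 : 0 ≤ L := Real.log_nonneg (by rw [le_div_iff₀ hem]; linarith)
  have e : Real.log (w * (2 / em)) = Real.log w + (Real.log 2 + L) := by
    rw [Real.log_mul hw0.ne' (by positivity), hL, ← Real.log_mul two_ne_zero (by positivity)]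
    congr 2
    ring
  have hlog2 : Real.log 2 ≤ 1 := by
    have := Real.log_le_sub_one_of_pos (show (0 : ℝ) < 2 by norm_num)
    linarith
  have hlog20 : 0 ≤ Real.log 2 := Real.log_nonneg (by norm_num)
  set l := Real.log w with hl
  have hsq : 1 + l ≤ (1 + l) ^ 2 := by nlinarith
  constructor
  · rw [e]
    have hb : C0 * L ≤ w / 2 := by
      calc C0 * L ≤ C0 * (1 / (2 * C0) * w) := mul_le_mul_of_nonneg_left hlog hC.le
        _ = w / 2 := by field_simp
    have hc : C0 * (1 + (l + Real.log 2)) ≤ w / 2 := by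
      calc C0 * (1 + (l + Real.log 2)) ≤ C0 * (2 * (1 + l) ^ 2) :=
            mul_le_mul_of_nonneg_left (by linarith) hC.le
        _ = (4 * C0 * (1 + l) ^ 2) / 2 := by ring
        _ ≤ w / 2 := by linarith
    calc C0 * (1 + (l + (Real.log 2 + L))) = C0 * (1 + (l + Real.log 2)) + C0 * L := by ring
      _ ≤ w := by linarith
  · rw [e]
    have hemL : em * L ^ 2 ≤ 4 := by
      set r := Real.sqrt em with hr
      have hr0 : 0 < r := Real.sqrt_pos.mpr hem
      have hr2 : r * r = em := Real.mul_self_sqrt hem.le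
      have hL2 : L = 2 * Real.log (1 / r) := by
        rw [hL, ← hr2, one_div, one_div, Real.log_inv, Real.log_inv,
          Real.log_mul hr0.ne' hr0.ne']
        ring
      have h3 : Real.log (1 / r) ≤ 1 / r - 1 := Real.log_le_sub_one_of_pos (by positivity)
      have h4 : L ≤ 2 / r := by
        rw [hL2]
        have : 2 / r = 2 * (1 / r) := by ring
        rw [this]
        linarith
      have h5 : r * L ≤ 2 := by
        calc r * L ≤ r * (2 / r) := mul_le_mul_of_nonneg_left h4 hr0.le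
          _ = 2 := by field_simp
      have h6 : 0 ≤ r * L := mul_nonneg hr0.le hL0
      calc em * L ^ 2 = (r * L) ^ 2 := by rw [← hr2]; ring
        _ ≤ 2 ^ 2 := pow_le_pow_left₀ h6 h5 2
        _ = 4 := by norm_num
    have h7 : em * (1 + (l + (Real.log 2 + L))) ^ 2 ≤ 16 * (1 + l) ^ 2 := by
      have h8 : (1 + (l + (Real.log 2 + L))) ^ 2 ≤ 2 * (1 + l + Real.log 2) ^ 2 + 2 * L ^ 2 := by
        nlinarith [sq_nonneg (1 + l + Real.log 2 - L)]
      have h9 : (1 + l + Real.log 2) ^ 2 ≤ 4 * (1 + l) ^ 2 := by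
        have : (1 + l + Real.log 2) ≤ 2 * (1 + l) := by linarith
        calc (1 + l + Real.log 2) ^ 2 ≤ (2 * (1 + l)) ^ 2 :=
              pow_le_pow_left₀ (by positivity) this 2
          _ = 4 * (1 + l) ^ 2 := by ring
      have h10 : em * (1 + l + Real.log 2) ^ 2 ≤ 4 * (1 + l) ^ 2 := by
        calc em * (1 + l + Real.log 2) ^ 2 ≤ 1 * (1 + l + Real.log 2) ^ 2 :=
              mul_le_mul_of_nonneg_right hem1 (sq_nonneg _)
          _ ≤ _ := by linarith
      have h11 : 1 ≤ (1 + l) ^ 2 := by nlinarith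
      calc em * (1 + (l + (Real.log 2 + L))) ^ 2
          ≤ em * (2 * (1 + l + Real.log 2) ^ 2 + 2 * L ^ 2) :=
            mul_le_mul_of_nonneg_left h8 hem.le
        _ = 2 * (em * (1 + l + Real.log 2) ^ 2) + 2 * (em * L ^ 2) := by ring
        _ ≤ 2 * (4 * (1 + l) ^ 2) + 2 * 4 := by linarith
        _ ≤ 16 * (1 + l) ^ 2 := by linarith
    calc K * em * (1 + (l + (Real.log 2 + L))) ^ 2
        = K * (em * (1 + (l + (Real.log 2 + L))) ^ 2) := by ring
      _ ≤ K * (16 * (1 + l) ^ 2) := mul_le_mul_of_nonneg_left h7 hK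
      _ = ε ^ 2 * (16 * K / ε ^ 2 * (1 + l) ^ 2) := by field_simp
      _ ≤ ε ^ 2 * w := mul_le_mul_of_nonneg_left a2 (sq_nonneg _)

/-- `(w t)^2 / 4 ≤ (1+t)_+^w + (1-t)_+^w` -/
theorem sq_le_pow {w : ℕ} (hw : 2 ≤ w) (t : ℝ) :
    (w * t) ^ 2 ≤ 4 * ((max (1 + t) 0) ^ w + (max (1 - t) 0) ^ w) := by
  have key : ∀ s : ℝ, 0 ≤ s → (w * s) ^ 2 ≤ 4 * (1 + s) ^ w := by
    intro s hs
    obtain ⟨m, rfl⟩ : ∃ m, w = m + 2 := ⟨w - 2, by omega⟩
    have hind : ∀ m : ℕ, 1 + ((m : ℝ) + 2) * s + ((m : ℝ) + 2) * ((m : ℝ) + 1) / 2 * s ^ 2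
        ≤ (1 + s) ^ (m + 2) := by
      intro m
      induction m with
      | zero =>
        push_cast
        nlinarith
      | succ m ih =>
        have h1 : (1 + s) ^ (m + 1 + 2) = (1 + s) ^ (m + 2) * (1 + s) := by
          rw [← pow_succ]
        rw [h1]
        have h2 := mul_le_mul_of_nonneg_right ih (show 0 ≤ 1 + s by linarith)
        refine le_trans ?_ h2
        push_cast
        have hm : (0 : ℝ) ≤ m := Nat.cast_nonneg m
        nlinarith [mul_nonneg (mul_nonneg hm hs) (sq_nonneg s), pow_nonneg hs 3,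
          mul_nonneg (mul_nonneg hm hm) (pow_nonneg hs 3), mul_nonneg hm (pow_nonneg hs 3)]
    have h := hind m
    have hm : (0 : ℝ) ≤ m := Nat.cast_nonneg m
    push_cast
    nlinarith [mul_nonneg hm (sq_nonneg s), mul_nonneg hm hs, sq_nonneg s,
      mul_nonneg (mul_nonneg hm hm) (sq_nonneg s)]
  rcases le_total 0 t with ht | ht
  · have h1 : max (1 + t) 0 = 1 + t := max_eq_left (by linarith)
    rw [h1]
    have := key t ht
    have h2 : 0 ≤ (max (1 - t) 0) ^ w := pow_nonneg (le_max_right _ _) _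
    linarith
  · have h1 : max (1 - t) 0 = 1 + (-t) := by rw [max_eq_left (by linarith)]; ring
    rw [h1]
    have := key (-t) (by linarith)
    have h2 : 0 ≤ (max (1 + t) 0) ^ w := pow_nonneg (le_max_right _ _) _
    have e : (w * -t) ^ 2 = (w * t) ^ 2 := by ring
    linarith

section
variable {V : Type} [DecidableEq V] {G : SimpleGraph V} [DecidableRel G.Adj]

theorem KR_symm (Y : Finset V) (nu : V → ℝ) (x x' : V) : KR G Y nu x x' = KR G Y nu x' x := by
  rw [KR, KR]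
  congr 1
  · exact Finset.sum_congr rfl fun y _ => by ring
  · ring

/-- second moments of the normalised covariances from F2 -/
theorem secR {a b c d q p : ℝ} (ha : 0 < a) (hb : 0 < b) (hd : 0 < d) {w w' : ℕ} (hw : 2 ≤ w)
    (hw' : 1 ≤ w') {X Y Z : Finset V} {nu ze : V → ℝ} (hnu : IsProb Y nu) (hze : IsProb Z ze)
    (hmax : ∀ nu' ze' : V → ℝ, IsProb Y nu' → IsProb Z ze' →
      PP G a b c d q p w w' X Y Z nu' ze' ≤ PP G a b c d q p w w' X Y Z nu ze)
    (x₀ : V) :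
    ∑ x ∈ X, wt G q p w w' Y Z nu ze x * (w * (KR G Y nu x x₀ / (dR G Y nu x - q))) ^ 2
      ≤ 8 * (2 ^ (1 + d)) ^ (b / (a * d)) * SS G q p w w' X Y Z nu ze := by
  have h1 := Pool.Agent.H74.RM.momR ha hb hd (by omega) hw' hnu hze hmax x₀ (θ := 1) (by simp)
  have h2 := Pool.Agent.H74.RM.momR ha hb hd (by omega) hw' hnu hze hmax x₀ (θ := -1) (by simp)
  calc ∑ x ∈ X, wt G q p w w' Y Z nu ze x * (w * (KR G Y nu x x₀ / (dR G Y nu x - q))) ^ 2
      ≤ ∑ x ∈ X, wt G q p w w' Y Z nu ze x *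
          (4 * ((max (1 + 1 * KR G Y nu x x₀ / (dR G Y nu x - q)) 0) ^ w
            + (max (1 + -1 * KR G Y nu x x₀ / (dR G Y nu x - q)) 0) ^ w)) := by
        refine Finset.sum_le_sum fun x _ => mul_le_mul_of_nonneg_left ?_ (wt_nonneg _ _ _ _ _ _ _ _ _)
        have := sq_le_pow hw (KR G Y nu x x₀ / (dR G Y nu x - q))
        refine this.trans_eq ?_
        congr 3
        · congr 1; ring
        · congr 1; ring
    _ = 4 * ∑ x ∈ X, wt G q p w w' Y Z nu ze x *
          (max (1 + 1 * KR G Y nu x x₀ / (dR G Y nu x - q)) 0) ^ w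
        + 4 * ∑ x ∈ X, wt G q p w w' Y Z nu ze x *
          (max (1 + -1 * KR G Y nu x x₀ / (dR G Y nu x - q)) 0) ^ w := by
        rw [Finset.mul_sum, Finset.mul_sum, ← Finset.sum_add_distrib]
        exact Finset.sum_congr rfl fun x _ => by ring
    _ ≤ _ := by linarith

/-- first moments of the covariances -/
theorem firstR {q p : ℝ} {w w' : ℕ} (hw : 1 ≤ w) (hw' : 1 ≤ w') {X Y Z : Finset V}
    {nu ze : V → ℝ} {C2 em : ℝ} (hC2 : 0 ≤ C2) (hem : 0 < em)
    (hS : 0 < SS G q p w w' X Y Z nu ze)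
    (hsec : ∀ x₀ : V, ∑ x ∈ X, wt G q p w w' Y Z nu ze x
        * (w * (KR G Y nu x x₀ / (dR G Y nu x - q))) ^ 2
      ≤ C2 * SS G q p w w' X Y Z nu ze)
    (h2 : ∑ x ∈ X, wt G q p w w' Y Z nu ze x * ((dR G Y nu x - q) / em) ^ 2
      ≤ 2 * SS G q p w w' X Y Z nu ze) (x₀ : V) :
    ∑ x ∈ X, wt G q p w w' Y Z nu ze x * |KR G Y nu x x₀|
      ≤ Real.sqrt (2 * C2) * em / w * SS G q p w w' X Y Z nu ze := by
  set S := SS G q p w w' X Y Z nu ze with hSd
  have hw0 : (0 : ℝ) < w := by exact_mod_cast hw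
  have hcs := Finset.sum_mul_sq_le_sq_mul_sq X
    (fun x => Real.sqrt (wt G q p w w' Y Z nu ze x)
      * |w * (KR G Y nu x x₀ / (dR G Y nu x - q))|)
    (fun x => Real.sqrt (wt G q p w w' Y Z nu ze x) * ((dR G Y nu x - q) / em))
  have e1 : ∀ x ∈ X, Real.sqrt (wt G q p w w' Y Z nu ze x)
      * |w * (KR G Y nu x x₀ / (dR G Y nu x - q))|
      * (Real.sqrt (wt G q p w w' Y Z nu ze x) * ((dR G Y nu x - q) / em))
      = w / em * (wt G q p w w' Y Z nu ze x * |KR G Y nu x x₀|) := by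
    intro x _
    have hs := Real.mul_self_sqrt (wt_nonneg (G := G) q p w w' Y Z nu ze x)
    by_cases hz : wt G q p w w' Y Z nu ze x = 0
    · rw [hz]; simp
    · have he := (excess_pos hw hw' hz).1
      have ha : |w * (KR G Y nu x x₀ / (dR G Y nu x - q))|
          = w * (|KR G Y nu x x₀| / (dR G Y nu x - q)) := by
        rw [abs_mul, abs_div, abs_of_pos he, abs_of_pos hw0]
      rw [ha]
      calc _ = (Real.sqrt (wt G q p w w' Y Z nu ze x) * Real.sqrt (wt G q p w w' Y Z nu ze x))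
            * (w * (|KR G Y nu x x₀| / (dR G Y nu x - q)) * ((dR G Y nu x - q) / em)) := by ring
        _ = wt G q p w w' Y Z nu ze x
            * (w * (|KR G Y nu x x₀| / (dR G Y nu x - q)) * ((dR G Y nu x - q) / em)) := by
            rw [hs]
        _ = _ := by field_simp
  have e2 : ∀ x ∈ X, (Real.sqrt (wt G q p w w' Y Z nu ze x)
      * |w * (KR G Y nu x x₀ / (dR G Y nu x - q))|) ^ 2
      = wt G q p w w' Y Z nu ze x * (w * (KR G Y nu x x₀ / (dR G Y nu x - q))) ^ 2 := by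
    intro x _
    rw [mul_pow, sq_abs, Real.sq_sqrt (wt_nonneg _ _ _ _ _ _ _ _ _)]
  have e3 : ∀ x ∈ X, (Real.sqrt (wt G q p w w' Y Z nu ze x) * ((dR G Y nu x - q) / em)) ^ 2
      = wt G q p w w' Y Z nu ze x * ((dR G Y nu x - q) / em) ^ 2 := by
    intro x _
    rw [mul_pow, Real.sq_sqrt (wt_nonneg _ _ _ _ _ _ _ _ _)]
  rw [Finset.sum_congr rfl e1, Finset.sum_congr rfl e2, Finset.sum_congr rfl e3,
    ← Finset.mul_sum] at hcs
  set M := ∑ x ∈ X, wt G q p w w' Y Z nu ze x * |KR G Y nu x x₀| with hM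
  have hM0 : 0 ≤ M := Finset.sum_nonneg fun x _ =>
    mul_nonneg (wt_nonneg _ _ _ _ _ _ _ _ _) (abs_nonneg _)
  have h3 : (w / em * M) ^ 2 ≤ (Real.sqrt (2 * C2) * S) ^ 2 := by
    refine hcs.trans ?_
    rw [mul_pow, Real.sq_sqrt (by positivity)]
    calc _ ≤ (C2 * S) * (2 * S) := mul_le_mul (hsec x₀) h2
            (Finset.sum_nonneg fun x _ => mul_nonneg (wt_nonneg _ _ _ _ _ _ _ _ _) (sq_nonneg _))
            (by positivity)
      _ = _ := by ring
  have h4 : w / em * M ≤ Real.sqrt (2 * C2) * S :=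
    (sq_le_sq₀ (by positivity) (by positivity)).mp h3
  calc M = em / w * (w / em * M) := by field_simp
    _ ≤ em / w * (Real.sqrt (2 * C2) * S) := mul_le_mul_of_nonneg_left h4 (by positivity)
    _ = _ := by ring

end

/-- F3 (red): on average the covariance of the neighbourhoods with the Renyi density is small. -/
theorem F3R (hC : RowC) {a b d : ℝ} (ha : 0 < a) (hb : 0 < b) (hd : 0 < d) (hd1 : d ≤ 1)
    {ε : ℝ} (hε : 0 < ε) :
    ∃ (e1 : ℝ) (W : ℕ), 0 < e1 ∧
      ∀ (V : Type) [DecidableEq V] (G : SimpleGraph V) [DecidableRel G.Adj]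
        (X Y Z : Finset V) (nu ze : V → ℝ) (w w' : ℕ) (em c q p : ℝ),
        W ≤ w → 1 ≤ w' → IsProb Y nu → IsProb Z ze → 0 < em → em ≤ 1 →
        Real.log (1 / em) ≤ e1 * w →
        0 < SS G q p w w' X Y Z nu ze →
        (∀ nu' ze' : V → ℝ, IsProb Y nu' → IsProb Z ze' →
          PP G a b c d q p w w' X Y Z nu' ze' ≤ PP G a b c d q p w w' X Y Z nu ze) →
        (∑ x ∈ X, wt G q p w w' Y Z nu ze x * ((dR G Y nu x - q) / em) ^ 2
          ≤ 2 * SS G q p w w' X Y Z nu ze) →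
        (∑ x ∈ X, wt G q p w w' Y Z nu ze x * (em / (dR G Y nu x - q))
          ≤ 2 * SS G q p w w' X Y Z nu ze) →
        ∑ x ∈ X, wt G q p w w' Y Z nu ze x *
          |∑ y ∈ Y, nu y * (rI G x y * (nu y ^ d / ∑ y' ∈ Y, nu y' ^ (1 + d)))
            - dR G Y nu x * ∑ y ∈ Y, nu y * (nu y ^ d / ∑ y' ∈ Y, nu y' ^ (1 + d))|
          ≤ ε * SS G q p w w' X Y Z nu ze := by
  obtain ⟨C0, hC0, hrow⟩ := hC a b d ha hb hd hd1
  set C2 : ℝ := 8 * (2 ^ (1 + d)) ^ (b / (a * d)) with hC2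
  have hC2p : 0 < C2 := by positivity
  obtain ⟨e1, W, he1, hW1, harith⟩ := f3_arith (K := Real.sqrt (2 * C2) * C0) hC0
    (by positivity) hε
  refine ⟨e1, W + 2, he1, ?_⟩
  intro V _ G _ X Y Z nu ze w w' em c q p hw hw' hnu hze hem hem1 hlog hS hmax hm2 hm1
  set S := SS G q p w w' X Y Z nu ze with hSd
  have hw2 : 2 ≤ w := by omega
  have hw1 : 1 ≤ w := by omega
  have hw0 : (0 : ℝ) < w := by exact_mod_cast hw1
  obtain ⟨ar1, ar2⟩ := harith w em (by omega) hem hem1 hlog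
  set T : V → ℝ := fun y => nu y ^ d / ∑ y' ∈ Y, nu y' ^ (1 + d) with hT
  -- row C
  set g : V → ℝ := fun y => ∑ x ∈ X, wt G q p w w' Y Z nu ze x / S *
        (rI G x y / (dR G Y nu x - q)) with hg
  have hterm : ∀ x ∈ X, ∀ y, 0 ≤ wt G q p w w' Y Z nu ze x / S * (rI G x y / (dR G Y nu x - q)) ∧
      wt G q p w w' Y Z nu ze x / S * (rI G x y / (dR G Y nu x - q))
        ≤ 1 / (em * S) * (wt G q p w w' Y Z nu ze x * (em / (dR G Y nu x - q))) := by
    intro x _ y
    by_cases hz : wt G q p w w' Y Z nu ze x = 0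
    · rw [hz]; simp
    · have he := (excess_pos hw1 hw' hz).1
      have hwt := wt_nonneg (G := G) q p w w' Y Z nu ze x
      have hr0 := rI_nonneg G x y
      have hr1 := rI_le_one G x y
      constructor
      · positivity
      · calc wt G q p w w' Y Z nu ze x / S * (rI G x y / (dR G Y nu x - q))
            ≤ wt G q p w w' Y Z nu ze x / S * (1 / (dR G Y nu x - q)) := by
              refine mul_le_mul_of_nonneg_left ?_ (by positivity)
              exact div_le_div_of_nonneg_right hr1 he.le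
          _ = _ := by field_simp
  have hg0 : ∀ y ∈ Y, 0 ≤ g y := fun y _ => Finset.sum_nonneg fun x hx => (hterm x hx y).1
  have hgm : ∀ y ∈ Y, g y ≤ 2 / em := by
    intro y _
    calc g y ≤ ∑ x ∈ X, 1 / (em * S) * (wt G q p w w' Y Z nu ze x * (em / (dR G Y nu x - q))) :=
          Finset.sum_le_sum fun x hx => (hterm x hx y).2
      _ = 1 / (em * S) * ∑ x ∈ X, wt G q p w w' Y Z nu ze x * (em / (dR G Y nu x - q)) := by
          rw [Finset.mul_sum]
      _ ≤ 1 / (em * S) * (2 * S) := mul_le_mul_of_nonneg_left hm1 (by positivity)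
      _ = 2 / em := by field_simp
  have hGm : 1 ≤ 2 / em := by rw [le_div_iff₀ hem]; linarith
  have hvar := hrow V Y nu g w (2 / em) hnu hg0 hgm hGm hw1 ar1 (by
    intro f hf h1 hU
    exact rowC_hyp_R (c := c) ha hw1 hw' hnu hS (fun nu' h' => hmax nu' ze h' hze) f hf h1 hU)
  -- the variance
  have hvar2 : ∑ y ∈ Y, nu y * (T y) ^ 2 - (∑ y ∈ Y, nu y * T y) ^ 2
      ≤ C0 * (1 + Real.log (w * (2 / em))) ^ 2 := by
    refine le_trans ?_ hvar
    have e : ∀ y, nu y * (T y - 1) ^ 2 = nu y * (T y) ^ 2 - 2 * (nu y * T y) + nu y := by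
      intro y; ring
    have e' : ∑ y ∈ Y, nu y * (T y - 1) ^ 2
        = ∑ y ∈ Y, nu y * (T y) ^ 2 - 2 * ∑ y ∈ Y, nu y * T y + 1 := by
      rw [Finset.sum_congr rfl (fun y _ => e y), Finset.sum_add_distrib,
        Finset.sum_sub_distrib, ← Finset.mul_sum, hnu.sum]
    have e'' : ∑ y ∈ Y, nu y * (nu y ^ d / (∑ y' ∈ Y, nu y' ^ (1 + d)) - 1) ^ 2
        = ∑ y ∈ Y, nu y * (T y - 1) ^ 2 := rfl
    rw [e'', e']
    nlinarith [sq_nonneg (∑ y ∈ Y, nu y * T y - 1)]
  -- row B2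
  have hB2 := rowB2 V (fun x y => rI G x y) X Y nu T
    (fun x => wt G q p w w' Y Z nu ze x) hnu (fun x _ => wt_nonneg _ _ _ _ _ _ _ _ _)
  have hsec := fun x₀ : V => secR (G := G) ha hb hd hw2 hw' hnu hze hmax x₀
  have hfirst := fun x₀ : V => firstR (G := G) (C2 := C2) hw1 hw' hC2p.le hem hS hsec hm2 x₀
  have hdouble : ∑ x ∈ X, ∑ x' ∈ X, wt G q p w w' Y Z nu ze x * wt G q p w w' Y Z nu ze x' *
        |∑ y ∈ Y, nu y * (rI G x y * rI G x' y)
            - (∑ y ∈ Y, nu y * rI G x y) * ∑ y ∈ Y, nu y * rI G x' y|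
      ≤ Real.sqrt (2 * C2) * em / w * S * S := by
    calc _ = ∑ x ∈ X, wt G q p w w' Y Z nu ze x *
            ∑ x' ∈ X, wt G q p w w' Y Z nu ze x' * |KR G Y nu x' x| := by
          refine Finset.sum_congr rfl fun x _ => ?_
          rw [Finset.mul_sum]
          refine Finset.sum_congr rfl fun x' _ => ?_
          rw [KR_symm Y nu x' x, KR, dR, dR]
          ring
      _ ≤ ∑ x ∈ X, wt G q p w w' Y Z nu ze x * (Real.sqrt (2 * C2) * em / w * S) :=
          Finset.sum_le_sum fun x _ =>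
            mul_le_mul_of_nonneg_left (hfirst x) (wt_nonneg _ _ _ _ _ _ _ _ _)
      _ = _ := by
          rw [← Finset.sum_mul]
          rw [hSd, SS]
          ring
  have hvar0 : 0 ≤ ∑ y ∈ Y, nu y * (T y) ^ 2 - (∑ y ∈ Y, nu y * T y) ^ 2 := by
    have hc := cov_eq Y nu T T hnu.sum
    have e : ∑ y ∈ Y, nu y * (T y) ^ 2 - (∑ y ∈ Y, nu y * T y) ^ 2
        = ∑ y ∈ Y, nu y * (T y * T y) - (∑ y ∈ Y, nu y * T y) * ∑ y ∈ Y, nu y * T y := by
      rw [sq]
      congr 1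
      exact Finset.sum_congr rfl fun y _ => by ring
    rw [e, hc]
    exact Finset.sum_nonneg fun y _ => mul_nonneg (hnu.nonneg y) (mul_self_nonneg _)
  set M := ∑ x ∈ X, wt G q p w w' Y Z nu ze x *
          |∑ y ∈ Y, nu y * (rI G x y * T y) - dR G Y nu x * ∑ y ∈ Y, nu y * T y| with hM
  have hM0 : 0 ≤ M := Finset.sum_nonneg fun x _ =>
    mul_nonneg (wt_nonneg _ _ _ _ _ _ _ _ _) (abs_nonneg _)
  have hfin : M ^ 2 ≤ (ε * S) ^ 2 := by
    calc M ^ 2 ≤ _ := hB2
      _ ≤ (Real.sqrt (2 * C2) * em / w * S * S) * (C0 * (1 + Real.log (w * (2 / em))) ^ 2) :=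
          mul_le_mul hdouble hvar2 hvar0 (by positivity)
      _ = (Real.sqrt (2 * C2) * C0 * em * (1 + Real.log (w * (2 / em))) ^ 2) / w * S ^ 2 := by
          ring
      _ ≤ (ε ^ 2 * w) / w * S ^ 2 := by
          refine mul_le_mul_of_nonneg_right ?_ (sq_nonneg _)
          exact div_le_div_of_nonneg_right ar2 hw0.le
      _ = (ε * S) ^ 2 := by field_simp
  exact (sq_le_sq₀ hM0 (by positivity)).mp hfin

end Pool.Agent.H20.RM
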