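import Pool.Agent.H20.RM.B3
import Pool.Agent.H20.RM.F3

/-!
Row F3, short form.
-/

open Finset

set_option linter.unusedSectionVars false

namespace Pool.Agent.H20.RM

open Pool.Agent.H92 Pool.Agent.H34.RM

/-- `w |t| ≤ (1+t)_+^w + (1-t)_+^w` -/
theorem abs_le_pow {w : ℕ} (t : ℝ) :
    w * |t| ≤ (max (1 + t) 0) ^ w + (max (1 - t) 0) ^ w := by
  have key : ∀ s : ℝ, 0 ≤ s → w * s ≤ (1 + s) ^ w := by
    intro s hs
    have := one_add_mul_le_pow (show (-2 : ℝ) ≤ s by linarith) w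
    linarith
  rcases le_total 0 t with ht | ht
  · have h1 : max (1 + t) 0 = 1 + t := max_eq_left (by linarith)
    rw [h1, abs_of_nonneg ht]
    have := key t ht
    have h2 : 0 ≤ (max (1 - t) 0) ^ w := pow_nonneg (le_max_right _ _) _
    linarith
  · have h1 : max (1 - t) 0 = 1 + (-t) := by rw [max_eq_left (by linarith)]; ring
    rw [h1, abs_of_nonpos ht]
    have := key (-t) (by linarith)
    have h2 : 0 ≤ (max (1 + t) 0) ^ w := pow_nonneg (le_max_right _ _) _
    linarith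

section
variable {V : Type} [DecidableEq V] {G : SimpleGraph V} [DecidableRel G.Adj]

/-- first moments of the red covariances, without information on the excesses -/
theorem firstR' {a b c d q p : ℝ} (ha : 0 < a) (hb : 0 < b) (hd : 0 < d) (hq : 0 < q)
    {w w' : ℕ} (hw : 1 ≤ w)
    (hw' : 1 ≤ w') {X Y Z : Finset V} {nu ze : V → ℝ} (hnu : IsProb Y nu) (hze : IsProb Z ze)
    (hmax : ∀ nu' ze' : V → ℝ, IsProb Y nu' → IsProb Z ze' →
      PP G a b c d q p w w' X Y Z nu' ze' ≤ PP G a b c d q p w w' X Y Z nu ze)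
    (x₀ : V) :
    ∑ x ∈ X, wt G q p w w' Y Z nu ze x * |KR G Y nu x x₀|
      ≤ 2 * (2 ^ (1 + d)) ^ (b / (a * d)) / w * SS G q p w w' X Y Z nu ze := by
  have h1 := Pool.Agent.H74.RM.momR ha hb hd hw hw' hnu hze hmax x₀ (θ := 1) (by simp)
  have h2 := Pool.Agent.H74.RM.momR ha hb hd hw hw' hnu hze hmax x₀ (θ := -1) (by simp)
  have hw0 : (0 : ℝ) < w := by exact_mod_cast hw
  have h3 : w * ∑ x ∈ X, wt G q p w w' Y Z nu ze x * |KR G Y nu x x₀|
      ≤ 2 * (2 ^ (1 + d)) ^ (b / (a * d)) * SS G q p w w' X Y Z nu ze := by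
    calc w * ∑ x ∈ X, wt G q p w w' Y Z nu ze x * |KR G Y nu x x₀|
        ≤ ∑ x ∈ X, wt G q p w w' Y Z nu ze x *
            ((max (1 + 1 * KR G Y nu x x₀ / (dR G Y nu x - q)) 0) ^ w
              + (max (1 + -1 * KR G Y nu x x₀ / (dR G Y nu x - q)) 0) ^ w) := by
          rw [Finset.mul_sum]
          refine Finset.sum_le_sum fun x _ => ?_
          by_cases hz : wt G q p w w' Y Z nu ze x = 0
          · rw [hz]; simp
          · have he := (excess_pos hw hw' hz).1
            have he1 : dR G Y nu x - q ≤ 1 := by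
              have := Pool.Agent.H74.RM.dR_le_one (G := G) hnu x
              linarith
            have h := abs_le_pow (w := w) (KR G Y nu x x₀ / (dR G Y nu x - q))
            have h4 : |KR G Y nu x x₀| ≤ |KR G Y nu x x₀ / (dR G Y nu x - q)| := by
              rw [abs_div, abs_of_pos he]
              exact le_div_self (abs_nonneg _) he he1
            calc w * (wt G q p w w' Y Z nu ze x * |KR G Y nu x x₀|)
                = wt G q p w w' Y Z nu ze x * (w * |KR G Y nu x x₀|) := by ring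
              _ ≤ wt G q p w w' Y Z nu ze x * _ := by
                  refine mul_le_mul_of_nonneg_left ?_ (wt_nonneg _ _ _ _ _ _ _ _ _)
                  refine (mul_le_mul_of_nonneg_left h4 hw0.le).trans (h.trans_eq ?_)
                  rw [one_mul, neg_mul, one_mul, neg_div, ← sub_eq_add_neg]
      _ = ∑ x ∈ X, wt G q p w w' Y Z nu ze x *
            (max (1 + 1 * KR G Y nu x x₀ / (dR G Y nu x - q)) 0) ^ w
          + ∑ x ∈ X, wt G q p w w' Y Z nu ze x *
            (max (1 + -1 * KR G Y nu x x₀ / (dR G Y nu x - q)) 0) ^ w := by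
          rw [← Finset.sum_add_distrib]
          exact Finset.sum_congr rfl fun x _ => by ring
      _ ≤ _ := by linarith
  rw [div_mul_eq_mul_div, le_div_iff₀ hw0]
  linarith

/-- the Renyi density has mean one -/
theorem sum_Td {d : ℝ} {Y : Finset V} {nu : V → ℝ} (hd : 0 < d) (h : IsProb Y nu) :
    ∑ y ∈ Y, nu y * Td d Y nu y = 1 := by
  have hR : 0 < Ry d Y nu := rsum_pos h d
  have e : ∀ y, nu y * Td d Y nu y = nu y ^ (1 + d) / Ry d Y nu := by
    intro y
    rw [Td, ← mul_div_assoc]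
    congr 1
    rcases (h.nonneg y).eq_or_lt with h0 | h0
    · rw [← h0, zero_mul, Real.zero_rpow (by linarith)]
    · rw [Real.rpow_add h0, Real.rpow_one]
  rw [Finset.sum_congr rfl (fun y _ => e y), ← Finset.sum_div]
  exact div_self hR.ne'

end

/-- Row F3 for the red side. -/
theorem rowF3R (hC : RowC2) (a b c d q p : ℝ) (ha : 0 < a) (hb : 0 < b) (hd : 0 < d)
    (hd1 : d ≤ 1) (hq : 0 < q) (ε : ℝ) (hε : 0 < ε) : ∃ w0 : ℕ,
      ∀ (V : Type) [DecidableEq V] (G : SimpleGraph V) [DecidableRel G.Adj]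
        (X Y Z : Finset V) (nu ze : V → ℝ) (w w' : ℕ),
        w0 ≤ w → 1 ≤ w' → IsProb Y nu → IsProb Z ze →
        0 < SS G q p w w' X Y Z nu ze →
        (∀ nu' ze' : V → ℝ, IsProb Y nu' → IsProb Z ze' →
          PP G a b c d q p w w' X Y Z nu' ze' ≤ PP G a b c d q p w w' X Y Z nu ze) →
        ∑ x ∈ X, wt G q p w w' Y Z nu ze x * |CR G d Y nu x|
          ≤ ε * SS G q p w w' X Y Z nu ze := by
  obtain ⟨t0, W, ht0, hrow⟩ := hC a b d ha hb hd hd1 (ε / 2) (by linarith)
  set K0 : ℝ := 2 * (2 ^ (1 + d)) ^ (b / (a * d)) with hK0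
  have hK0p : 0 < K0 := by positivity
  obtain ⟨W2, hW2⟩ := exists_nat_ge (K0 * (2 * t0 / ε) ^ 2)
  refine ⟨max W (W2 + 1), ?_⟩
  intro V _ G _ X Y Z nu ze w w' hw hw' hnu hze hS hmax
  set S := SS G q p w w' X Y Z nu ze with hSd
  have hwW : W ≤ w := (le_max_left _ _).trans hw
  have hwW2 : W2 + 1 ≤ w := (le_max_right _ _).trans hw
  have hw1 : 1 ≤ w := by omega
  have hw0 : (0 : ℝ) < w := by exact_mod_cast hw1
  have htail := hrow V Y nu (fun y => ∑ x ∈ X, wt G q p w w' Y Z nu ze x / S *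
        (rI G x y / (dR G Y nu x - q))) w hnu hwW (by
    intro f hf h1 hU
    exact rowC_hyp_R (c := c) ha hw1 hw' hnu hS (fun nu' h' => hmax nu' ze h' hze) f
      (fun y _ => hf y) h1 hU)
  have hB := rowB3 V (fun x y => rI G x y) X Y nu (Td d Y nu)
    (fun x => wt G q p w w' Y Z nu ze x / S) t0 hnu (fun x y => rI_nonneg G x y)
    (fun x y => rI_le_one G x y)
    (fun y => div_nonneg (Real.rpow_nonneg (hnu.nonneg y) _) (rsum_pos hnu d).le)
    (fun x _ => div_nonneg (wt_nonneg _ _ _ _ _ _ _ _ _) hS.le)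
    (by rw [← Finset.sum_div]; exact div_self hS.ne') ht0.le
  -- the double sum
  have hdouble : ∑ x ∈ X, ∑ x' ∈ X, wt G q p w w' Y Z nu ze x / S
        * (wt G q p w w' Y Z nu ze x' / S) * |∑ y ∈ Y, nu y * (rI G x y * rI G x' y)
            - (∑ y ∈ Y, nu y * rI G x y) * ∑ y ∈ Y, nu y * rI G x' y| ≤ K0 / w := by
    calc _ = ∑ x ∈ X, wt G q p w w' Y Z nu ze x / S ^ 2 *
            ∑ x' ∈ X, wt G q p w w' Y Z nu ze x' * |KR G Y nu x' x| := by
          refine Finset.sum_congr rfl fun x _ => ?_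
          rw [Finset.mul_sum]
          refine Finset.sum_congr rfl fun x' _ => ?_
          rw [KR_symm Y nu x' x, KR, dR, dR]
          field_simp
      _ ≤ ∑ x ∈ X, wt G q p w w' Y Z nu ze x / S ^ 2 * (K0 / w * S) :=
          Finset.sum_le_sum fun x _ =>
            mul_le_mul_of_nonneg_left (firstR' ha hb hd hq hw1 hw' hnu hze hmax x)
              (div_nonneg (wt_nonneg _ _ _ _ _ _ _ _ _) (sq_nonneg _))
      _ = (∑ x ∈ X, wt G q p w w' Y Z nu ze x) / S ^ 2 * (K0 / w * S) := by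
          rw [← Finset.sum_mul, ← Finset.sum_div]
      _ = K0 / w := by
          have : ∑ x ∈ X, wt G q p w w' Y Z nu ze x = S := rfl
          rw [this]
          field_simp
  have hsq : t0 * Real.sqrt (∑ x ∈ X, ∑ x' ∈ X, wt G q p w w' Y Z nu ze x / S
        * (wt G q p w w' Y Z nu ze x' / S) * |∑ y ∈ Y, nu y * (rI G x y * rI G x' y)
            - (∑ y ∈ Y, nu y * rI G x y) * ∑ y ∈ Y, nu y * rI G x' y|) ≤ ε / 2 := by
    have h1 : K0 / w ≤ (ε / (2 * t0)) ^ 2 := by
      rw [div_le_iff₀ hw0]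
      have h2 : K0 * (2 * t0 / ε) ^ 2 ≤ w :=
        hW2.trans (by exact_mod_cast (by omega : W2 ≤ w))
      calc K0 = (ε / (2 * t0)) ^ 2 * (K0 * (2 * t0 / ε) ^ 2) := by field_simp
        _ ≤ (ε / (2 * t0)) ^ 2 * w := mul_le_mul_of_nonneg_left h2 (sq_nonneg _)
    have h3 := (Real.sqrt_le_sqrt (hdouble.trans h1)).trans_eq
      (Real.sqrt_sq (by positivity : 0 ≤ ε / (2 * t0)))
    calc _ ≤ t0 * (ε / (2 * t0)) := mul_le_mul_of_nonneg_left h3 ht0.le
      _ = ε / 2 := by field_simp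
  have hfin : ∑ x ∈ X, wt G q p w w' Y Z nu ze x / S * |CR G d Y nu x| ≤ ε := by
    have hone := sum_Td (d := d) hd hnu
    calc _ = ∑ x ∈ X, wt G q p w w' Y Z nu ze x / S * |∑ y ∈ Y, nu y * (rI G x y * Td d Y nu y)
          - (∑ y ∈ Y, nu y * rI G x y) * ∑ y ∈ Y, nu y * Td d Y nu y| := by
          refine Finset.sum_congr rfl fun x _ => ?_
          rw [hone, mul_one, CR, dR]
      _ ≤ _ := hB
      _ ≤ ε / 2 + ε / 2 := add_le_add hsq htail
      _ = ε := by ring
  calc ∑ x ∈ X, wt G q p w w' Y Z nu ze x * |CR G d Y nu x|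
      = (∑ x ∈ X, wt G q p w w' Y Z nu ze x / S * |CR G d Y nu x|) * S := by
        rw [Finset.sum_mul]
        exact Finset.sum_congr rfl fun x _ => by field_simp
    _ ≤ ε * S := mul_le_mul_of_nonneg_right hfin hS.le

/-- ROW F3. -/
theorem rowF3 (hC : RowC2) : RowF3 := by
  intro a b c d q p ha hb hc hd hd1 hq hq1 hp hp1 ε hε
  obtain ⟨w1, h1⟩ := rowF3R hC a b c d q p ha hb hd hd1 hq ε hε
  obtain ⟨w2, h2⟩ := rowF3R hC a c b d p q ha hc hd hd1 hp ε hε
  refine ⟨max 1 (max w1 w2), ?_⟩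
  intro V _ G _ X Y Z nu ze w w' hw hw' hnu hze hS hmax
  refine ⟨h1 V G X Y Z nu ze w w' (by omega) (by omega) hnu hze hS hmax, ?_⟩
  have hb' := h2 V Gᶜ X Z Y ze nu w' w (by omega) (by omega) hze hnu
    (by rw [Pool.Agent.H74.RM.SS_compl]; exact hS)
    (by
      intro ze' nu' h h'
      rw [Pool.Agent.H74.RM.PP_compl, Pool.Agent.H74.RM.PP_compl]
      exact hmax nu' ze' h' h)
  rw [Pool.Agent.H74.RM.SS_compl] at hb'
  refine le_trans (le_of_eq ?_) hb'
  refine Finset.sum_congr rfl fun x _ => ?_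
  rw [Pool.Agent.H74.RM.wt_compl]
  congr 2
  rw [CB, CR, Pool.Agent.H74.RM.dR_compl]
  congr 1
  exact Finset.sum_congr rfl fun y _ => by rw [Pool.Agent.H74.RM.rI_compl]

end Pool.Agent.H20.RM
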