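import Pool.Agent.H20.RM.Gram
import Pool.Agent.H74.RM.RowDE

/-!
F1: consequences of the maximality of the weights.
-/

open Finset

namespace Pool.Agent.H20.RM

open Pool.Agent.H92 Pool.Agent.H34.RM

set_option linter.unusedSectionVars false

section
variable {V : Type} [DecidableEq V] (G : SimpleGraph V) [DecidableRel G.Adj]

theorem rI_nonneg (x y : V) : 0 ≤ rI G x y := by
  rw [rI]; split_ifs <;> norm_num

theorem rI_le_one (x y : V) : rI G x y ≤ 1 := by
  rw [rI]; split_ifs <;> norm_num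

theorem bI_nonneg (x y : V) : 0 ≤ bI G x y := by
  rw [bI]; split_ifs <;> norm_num

theorem bI_le_one (x y : V) : bI G x y ≤ 1 := by
  rw [bI]; split_ifs <;> norm_num

variable {G}

theorem wt_nonneg (q p : ℝ) (w w' : ℕ) (Y Z : Finset V) (nu ze : V → ℝ) (x : V) :
    0 ≤ wt G q p w w' Y Z nu ze x :=
  mul_nonneg (pow_nonneg (le_max_right _ _) _) (pow_nonneg (le_max_right _ _) _)

/-- a point of positive weight has positive excesses -/
theorem excess_pos {q p : ℝ} {w w' : ℕ} (hw : 1 ≤ w) (hw' : 1 ≤ w') {Y Z : Finset V}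
    {nu ze : V → ℝ} {x : V} (h : wt G q p w w' Y Z nu ze x ≠ 0) :
    0 < dR G Y nu x - q ∧ 0 < dB G Z ze x - p := by
  constructor
  · by_contra hn
    apply h
    rw [wt, max_eq_right (not_lt.mp hn), zero_pow (by omega), zero_mul]
  · by_contra hn
    apply h
    rw [wt, max_eq_right (not_lt.mp hn) (a := dB G Z ze x - p), zero_pow (by omega), mul_zero]

/-- sum of `nu^(1+d)` is positive -/
theorem rsum_pos {Y : Finset V} {nu : V → ℝ} (h : IsProb Y nu) (d : ℝ) :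
    0 < ∑ y ∈ Y, nu y ^ (1 + d) := by
  have h1 : 0 < ∑ y ∈ Y, nu y := by rw [h.sum]; exact one_pos
  obtain ⟨y, hy, hpos⟩ := Finset.exists_lt_of_sum_lt
    (s := Y) (f := fun _ => (0 : ℝ)) (g := nu) (by simpa using h1)
  exact Finset.sum_pos' (fun i _ => Real.rpow_nonneg (h.nonneg i) _)
    ⟨y, hy, Real.rpow_pos_of_pos hpos _⟩

/-- maximality against a competitor whose sum is at least `E * S` -/
theorem ratio_of_max {a b c d q p : ℝ} (ha : 0 < a) {w w' : ℕ} {X Y Z : Finset V}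
    {nu ze nu' ze' : V → ℝ} (hS : 0 < SS G q p w w' X Y Z nu ze) {E r : ℝ} (hE : 0 < E)
    (hlow : SS G q p w w' X Y Z nu ze * E ≤ r)
    (hmax : Real.exp (b * lsz d Y nu' + c * lsz d Z ze') * r ^ a
      ≤ PP G a b c d q p w w' X Y Z nu ze) :
    b * lsz d Y nu' + c * lsz d Z ze' + a * Real.log E ≤ b * lsz d Y nu + c * lsz d Z ze := by
  set S := SS G q p w w' X Y Z nu ze with hSd
  have hr : 0 < r := lt_of_lt_of_le (mul_pos hS hE) hlow
  rw [PP, ← hSd] at hmax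
  have h1 : Real.log (Real.exp (b * lsz d Y nu' + c * lsz d Z ze') * r ^ a)
      ≤ Real.log (Real.exp (b * lsz d Y nu + c * lsz d Z ze) * S ^ a) :=
    Real.log_le_log (mul_pos (Real.exp_pos _) (Real.rpow_pos_of_pos hr _)) hmax
  rw [Real.log_mul (Real.exp_pos _).ne' (Real.rpow_pos_of_pos hr _).ne', Real.log_exp,
    Real.log_rpow hr, Real.log_mul (Real.exp_pos _).ne' (Real.rpow_pos_of_pos hS _).ne',
    Real.log_exp, Real.log_rpow hS] at h1
  have h2 : Real.log S + Real.log E ≤ Real.log r := by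
    rw [← Real.log_mul hS.ne' hE.ne']
    exact Real.log_le_log (mul_pos hS hE) hlow
  nlinarith [mul_le_mul_of_nonneg_left h2 ha.le]

/-- multiplication of a weight by a density -/
theorem isProb_mul {Y : Finset V} {nu f : V → ℝ} (h : IsProb Y nu) (hf : ∀ y ∈ Y, 0 ≤ f y)
    (h1 : ∑ y ∈ Y, nu y * f y = 1) : IsProb Y (fun y => nu y * f y) where
  nonneg y := by
    by_cases hy : y ∈ Y
    · exact mul_nonneg (h.nonneg y) (hf y hy)
    · simp [h.supp y hy]
  supp y hy := by simp [h.supp y hy]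
  sum := h1

theorem dR_mul_sub {Y : Finset V} {nu f : V → ℝ} (x : V) :
    dR G Y (fun y => nu y * f y) x - dR G Y nu x
      = ∑ y ∈ Y, nu y * ((f y - 1) * rI G x y) := by
  rw [dR, dR, ← Finset.sum_sub_distrib]
  exact Finset.sum_congr rfl fun y _ => by ring

theorem dB_mul_sub {Y : Finset V} {nu f : V → ℝ} (x : V) :
    dB G Y (fun y => nu y * f y) x - dB G Y nu x
      = ∑ y ∈ Y, nu y * ((f y - 1) * bI G x y) := by
  rw [dB, dB, ← Finset.sum_sub_distrib]
  exact Finset.sum_congr rfl fun y _ => by ring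

/-- lower bound for the sum when only the red weight changes -/
theorem SS_low_R {q p : ℝ} {w w' : ℕ} (hw : 1 ≤ w) (hw' : 1 ≤ w') {X Y Z : Finset V}
    {nu ze nu' : V → ℝ} :
    ∑ x ∈ X, wt G q p w w' Y Z nu ze x *
        (max (1 + (dR G Y nu' x - dR G Y nu x) / (dR G Y nu x - q)) 0) ^ w
      ≤ SS G q p w w' X Y Z nu' ze := by
  have h := Pool.Agent.H74.RM.rowE q p w w' V G X X Y Z nu ze nu' ze hw hw' (Finset.Subset.refl X)
  refine le_trans (le_of_eq ?_) h
  refine Finset.sum_congr rfl fun x _ => ?_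
  simp

/-- lower bound for the sum when only the blue weight changes -/
theorem SS_low_B {q p : ℝ} {w w' : ℕ} (hw : 1 ≤ w) (hw' : 1 ≤ w') {X Y Z : Finset V}
    {nu ze ze' : V → ℝ} :
    ∑ x ∈ X, wt G q p w w' Y Z nu ze x *
        (max (1 + (dB G Z ze' x - dB G Z ze x) / (dB G Z ze x - p)) 0) ^ w'
      ≤ SS G q p w w' X Y Z nu ze' := by
  have h := Pool.Agent.H74.RM.rowE q p w w' V G X X Y Z nu ze nu ze' hw hw' (Finset.Subset.refl X)
  refine le_trans (le_of_eq ?_) h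
  refine Finset.sum_congr rfl fun x _ => ?_
  simp

/-- Jensen: with `π` a probability, `(1 + Σ π u)^w ≤ Σ π (1+u)_+^w` -/
theorem jensen_pow {X : Finset V} (wx u : V → ℝ) {S : ℝ} (hS : 0 < S)
    (h0 : ∀ x ∈ X, 0 ≤ wx x) (hs : ∑ x ∈ X, wx x = S) (w : ℕ)
    (hp : 0 ≤ 1 + ∑ x ∈ X, wx x / S * u x) :
    S * (1 + ∑ x ∈ X, wx x / S * u x) ^ w ≤ ∑ x ∈ X, wx x * (max (1 + u x) 0) ^ w := by
  have h1 : ∑ x ∈ X, wx x / S = 1 := by
    rw [← Finset.sum_div, hs, div_self hS.ne']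
  have hj := Real.pow_arith_mean_le_arith_mean_pow X (fun x => wx x / S)
    (fun x => max (1 + u x) 0) (fun x hx => div_nonneg (h0 x hx) hS.le) h1
    (fun x _ => le_max_right _ _) w
  have h2 : 1 + ∑ x ∈ X, wx x / S * u x ≤ ∑ x ∈ X, wx x / S * max (1 + u x) 0 := by
    calc 1 + ∑ x ∈ X, wx x / S * u x = ∑ x ∈ X, wx x / S * (1 + u x) := by
          have e : ∀ x, wx x / S * (1 + u x) = wx x / S + wx x / S * u x := fun x => by ring
          rw [Finset.sum_congr rfl (fun x _ => e x), Finset.sum_add_distrib, h1]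
      _ ≤ _ := Finset.sum_le_sum fun x hx =>
          mul_le_mul_of_nonneg_left (le_max_left _ _) (div_nonneg (h0 x hx) hS.le)
  calc S * (1 + ∑ x ∈ X, wx x / S * u x) ^ w
      ≤ S * ∑ x ∈ X, wx x / S * (max (1 + u x) 0) ^ w :=
        mul_le_mul_of_nonneg_left ((pow_le_pow_left₀ hp h2 w).trans hj) hS.le
    _ = _ := by
        rw [Finset.mul_sum]
        exact Finset.sum_congr rfl fun x _ => by field_simp

/-- F1 (red): the hypothesis of row C from the maximality of `nu`. -/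
theorem rowC_hyp_R {a b c d q p : ℝ} (ha : 0 < a)
    {w w' : ℕ} (hw : 1 ≤ w) (hw' : 1 ≤ w')
    {X Y Z : Finset V} {nu ze : V → ℝ} (hnu : IsProb Y nu)
    (hS : 0 < SS G q p w w' X Y Z nu ze)
    (hmax : ∀ nu' : V → ℝ, IsProb Y nu' →
      PP G a b c d q p w w' X Y Z nu' ze ≤ PP G a b c d q p w w' X Y Z nu ze)
    (f : V → ℝ) (hf : ∀ y ∈ Y, 0 ≤ f y) (h1 : ∑ y ∈ Y, nu y * f y = 1)
    (hU : 0 < 1 + ∑ y ∈ Y, nu y * ((f y - 1) *
      ∑ x ∈ X, wt G q p w w' Y Z nu ze x / SS G q p w w' X Y Z nu ze *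
        (rI G x y / (dR G Y nu x - q)))) :
    a * w * Real.log (1 + ∑ y ∈ Y, nu y * ((f y - 1) *
      ∑ x ∈ X, wt G q p w w' Y Z nu ze x / SS G q p w w' X Y Z nu ze *
        (rI G x y / (dR G Y nu x - q))))
      ≤ (b / d) * Real.log ((∑ y ∈ Y, (nu y * f y) ^ (1 + d)) / ∑ y ∈ Y, nu y ^ (1 + d)) := by
  set S := SS G q p w w' X Y Z nu ze with hSd
  set nu' : V → ℝ := fun y => nu y * f y with hnu'
  have hp' : IsProb Y nu' := isProb_mul hnu hf h1
  set U := ∑ y ∈ Y, nu y * ((f y - 1) * ∑ x ∈ X, wt G q p w w' Y Z nu ze x / S *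
        (rI G x y / (dR G Y nu x - q))) with hUd
  have hUe : U = ∑ x ∈ X, wt G q p w w' Y Z nu ze x / S *
      ((dR G Y nu' x - dR G Y nu x) / (dR G Y nu x - q)) := by
    rw [hUd]
    calc ∑ y ∈ Y, nu y * ((f y - 1) * ∑ x ∈ X, wt G q p w w' Y Z nu ze x / S *
          (rI G x y / (dR G Y nu x - q)))
        = ∑ y ∈ Y, ∑ x ∈ X, wt G q p w w' Y Z nu ze x / S *
            (nu y * ((f y - 1) * rI G x y) / (dR G Y nu x - q)) := by
          refine Finset.sum_congr rfl fun y _ => ?_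
          rw [Finset.mul_sum, Finset.mul_sum]
          exact Finset.sum_congr rfl fun x _ => by ring
      _ = ∑ x ∈ X, ∑ y ∈ Y, wt G q p w w' Y Z nu ze x / S *
            (nu y * ((f y - 1) * rI G x y) / (dR G Y nu x - q)) := Finset.sum_comm
      _ = _ := by
          refine Finset.sum_congr rfl fun x _ => ?_
          rw [hnu', dR_mul_sub, Finset.sum_div, Finset.mul_sum]
  have hlow : S * (1 + U) ^ w ≤ SS G q p w w' X Y Z nu' ze := by
    refine le_trans ?_ (SS_low_R (nu := nu) (nu' := nu') hw hw')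
    rw [hUe] at hU ⊢
    exact jensen_pow _ _ hS (fun x _ => wt_nonneg _ _ _ _ _ _ _ _ _) rfl w hU.le
  have hm := hmax nu' hp'
  have hE : 0 < (1 + U) ^ w := pow_pos hU w
  have hfin := ratio_of_max (c := c) (d := d) (b := b) (nu' := nu') (ze' := ze) ha hS hE hlow
    (by rw [PP] at hm; exact hm)
  rw [Real.log_pow] at hfin
  rw [Real.log_div (by
      have := rsum_pos hp' d
      exact this.ne') (rsum_pos hnu d).ne']
  have e1 : lsz d Y nu' = -(1 / d) * Real.log (∑ y ∈ Y, (nu y * f y) ^ (1 + d)) := rfl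
  have e2 : lsz d Y nu = -(1 / d) * Real.log (∑ y ∈ Y, nu y ^ (1 + d)) := rfl
  rw [e1, e2] at hfin
  have e3 : b / d * (Real.log (∑ y ∈ Y, (nu y * f y) ^ (1 + d))
        - Real.log (∑ y ∈ Y, nu y ^ (1 + d)))
      = b * (-(1 / d) * Real.log (∑ y ∈ Y, nu y ^ (1 + d)))
        - b * (-(1 / d) * Real.log (∑ y ∈ Y, (nu y * f y) ^ (1 + d))) := by
    ring
  rw [e3]
  nlinarith [hfin]

/-- F1 (blue). -/
theorem rowC_hyp_B {a b c d q p : ℝ} (ha : 0 < a)
    {w w' : ℕ} (hw : 1 ≤ w) (hw' : 1 ≤ w')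
    {X Y Z : Finset V} {nu ze : V → ℝ} (hze : IsProb Z ze)
    (hS : 0 < SS G q p w w' X Y Z nu ze)
    (hmax : ∀ ze' : V → ℝ, IsProb Z ze' →
      PP G a b c d q p w w' X Y Z nu ze' ≤ PP G a b c d q p w w' X Y Z nu ze)
    (f : V → ℝ) (hf : ∀ y ∈ Z, 0 ≤ f y) (h1 : ∑ y ∈ Z, ze y * f y = 1)
    (hU : 0 < 1 + ∑ y ∈ Z, ze y * ((f y - 1) *
      ∑ x ∈ X, wt G q p w w' Y Z nu ze x / SS G q p w w' X Y Z nu ze *
        (bI G x y / (dB G Z ze x - p)))) :
    a * w' * Real.log (1 + ∑ y ∈ Z, ze y * ((f y - 1) *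
      ∑ x ∈ X, wt G q p w w' Y Z nu ze x / SS G q p w w' X Y Z nu ze *
        (bI G x y / (dB G Z ze x - p))))
      ≤ (c / d) * Real.log ((∑ y ∈ Z, (ze y * f y) ^ (1 + d)) / ∑ y ∈ Z, ze y ^ (1 + d)) := by
  set S := SS G q p w w' X Y Z nu ze with hSd
  set ze' : V → ℝ := fun y => ze y * f y with hze'
  have hp' : IsProb Z ze' := isProb_mul hze hf h1
  set U := ∑ y ∈ Z, ze y * ((f y - 1) * ∑ x ∈ X, wt G q p w w' Y Z nu ze x / S *
        (bI G x y / (dB G Z ze x - p))) with hUd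
  have hUe : U = ∑ x ∈ X, wt G q p w w' Y Z nu ze x / S *
      ((dB G Z ze' x - dB G Z ze x) / (dB G Z ze x - p)) := by
    rw [hUd]
    calc ∑ y ∈ Z, ze y * ((f y - 1) * ∑ x ∈ X, wt G q p w w' Y Z nu ze x / S *
          (bI G x y / (dB G Z ze x - p)))
        = ∑ y ∈ Z, ∑ x ∈ X, wt G q p w w' Y Z nu ze x / S *
            (ze y * ((f y - 1) * bI G x y) / (dB G Z ze x - p)) := by
          refine Finset.sum_congr rfl fun y _ => ?_
          rw [Finset.mul_sum, Finset.mul_sum]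
          exact Finset.sum_congr rfl fun x _ => by ring
      _ = ∑ x ∈ X, ∑ y ∈ Z, wt G q p w w' Y Z nu ze x / S *
            (ze y * ((f y - 1) * bI G x y) / (dB G Z ze x - p)) := Finset.sum_comm
      _ = _ := by
          refine Finset.sum_congr rfl fun x _ => ?_
          rw [hze', dB_mul_sub, Finset.sum_div, Finset.mul_sum]
  have hlow : S * (1 + U) ^ w' ≤ SS G q p w w' X Y Z nu ze' := by
    refine le_trans ?_ (SS_low_B (ze := ze) (ze' := ze') hw hw')
    rw [hUe] at hU ⊢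
    exact jensen_pow _ _ hS (fun x _ => wt_nonneg _ _ _ _ _ _ _ _ _) rfl w' hU.le
  have hm := hmax ze' hp'
  have hE : 0 < (1 + U) ^ w' := pow_pos hU w'
  have hfin := ratio_of_max (c := c) (d := d) (b := b) (nu' := nu) (ze' := ze') ha hS hE hlow
    (by rw [PP] at hm; exact hm)
  rw [Real.log_pow] at hfin
  rw [Real.log_div (by
      have := rsum_pos hp' d
      exact this.ne') (rsum_pos hze d).ne']
  have e1 : lsz d Z ze' = -(1 / d) * Real.log (∑ y ∈ Z, (ze y * f y) ^ (1 + d)) := rfl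
  have e2 : lsz d Z ze = -(1 / d) * Real.log (∑ y ∈ Z, ze y ^ (1 + d)) := rfl
  rw [e1, e2] at hfin
  have e3 : c / d * (Real.log (∑ y ∈ Z, (ze y * f y) ^ (1 + d))
        - Real.log (∑ y ∈ Z, ze y ^ (1 + d)))
      = c * (-(1 / d) * Real.log (∑ y ∈ Z, ze y ^ (1 + d)))
        - c * (-(1 / d) * Real.log (∑ y ∈ Z, (ze y * f y) ^ (1 + d))) := by
    ring
  rw [e3]
  nlinarith [hfin]

end

end Pool.Agent.H20.RM
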