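import Pool.Agent.H20.RM.RowB

/-!
Gram kernels: closure properties.
-/

open Finset

namespace Pool.Agent.H20.RM

open Pool.Agent.H92 Pool.Agent.H34.RM

/-- Gram kernels (finite sums of rank one kernels with nonnegative coefficients). -/
def Gr {V : Type} (k : V → V → ℝ) : Prop :=
  ∃ (ι : Type) (_ : Fintype ι) (c : ι → ℝ) (g : ι → V → ℝ),
    (∀ j, 0 ≤ c j) ∧ ∀ x x', k x x' = ∑ j, c j * (g j x * g j x')

theorem Gr.congr {V : Type} {k k' : V → V → ℝ} (h : Gr k) (e : ∀ x x', k' x x' = k x x') :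
    Gr k' := by
  obtain ⟨ι, hι, c, g, hc, hg⟩ := h
  exact ⟨ι, hι, c, g, hc, fun x x' => (e x x').trans (hg x x')⟩

theorem Gr.const {V : Type} {r : ℝ} (hr : 0 ≤ r) : Gr (fun (_ _ : V) => r) :=
  ⟨Unit, inferInstance, fun _ => r, fun _ _ => 1, fun _ => hr, fun _ _ => by simp⟩

theorem Gr.add {V : Type} {k k' : V → V → ℝ} (h : Gr k) (h' : Gr k') :
    Gr (fun x x' => k x x' + k' x x') := by
  obtain ⟨ι, hι, c, g, hc, hg⟩ := h
  obtain ⟨ι', hι', c', g', hc', hg'⟩ := h'
  refine ⟨ι ⊕ ι', inferInstance, Sum.elim c c', Sum.elim g g', ?_, ?_⟩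
  · rintro (j | j)
    · exact hc j
    · exact hc' j
  · intro x x'
    simp only [Fintype.sum_sum_type, Sum.elim_inl, Sum.elim_inr]
    rw [hg, hg']

theorem Gr.mul {V : Type} {k k' : V → V → ℝ} (h : Gr k) (h' : Gr k') :
    Gr (fun x x' => k x x' * k' x x') := by
  obtain ⟨ι, hι, c, g, hc, hg⟩ := h
  obtain ⟨ι', hι', c', g', hc', hg'⟩ := h'
  refine ⟨ι × ι', inferInstance, fun j => c j.1 * c' j.2, fun j x => g j.1 x * g' j.2 x, ?_, ?_⟩
  · intro j
    exact mul_nonneg (hc _) (hc' _)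
  · intro x x'
    simp only
    rw [hg, hg', Finset.sum_mul_sum, Fintype.sum_prod_type]
    exact Finset.sum_congr rfl fun i _ => Finset.sum_congr rfl fun j _ => by ring

theorem Gr.smul {V : Type} {k : V → V → ℝ} (h : Gr k) {r : ℝ} (hr : 0 ≤ r) :
    Gr (fun x x' => r * k x x') := (Gr.const hr).mul h

theorem Gr.pow {V : Type} {k : V → V → ℝ} (h : Gr k) (n : ℕ) :
    Gr (fun x x' => k x x' ^ n) := by
  induction n with
  | zero => exact (Gr.const (zero_le_one)).congr fun x x' => by simp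
  | succ n ih => exact (ih.mul h).congr fun x x' => by rw [pow_succ]

theorem Gr.sum {V : Type} {κ : Type} (s : Finset κ) (k : κ → V → V → ℝ)
    (h : ∀ i ∈ s, Gr (k i)) : Gr (fun x x' => ∑ i ∈ s, k i x x') := by
  classical
  induction s using Finset.induction_on with
  | empty => exact (Gr.const le_rfl).congr fun x x' => by simp
  | insert a s ha ih =>
    refine ((h a (Finset.mem_insert_self a s)).add
      (ih fun i hi => h i (Finset.mem_insert_of_mem hi))).congr fun x x' => ?_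
    rw [Finset.sum_insert ha]

/-- rescaling of the points -/
theorem Gr.scale {V : Type} {k : V → V → ℝ} (h : Gr k) (f : V → ℝ) :
    Gr (fun x x' => f x * f x' * k x x') := by
  obtain ⟨ι, hι, c, g, hc, hg⟩ := h
  refine ⟨ι, hι, c, fun j x => f x * g j x, hc, fun x x' => ?_⟩
  simp only
  rw [hg, Finset.mul_sum]
  exact Finset.sum_congr rfl fun j _ => by ring

/-- the factor `(1 + r k / n)^m` keeps Gram kernels -/
theorem Gr.one_add_pow {V : Type} {k : V → V → ℝ} (h : Gr k) {r : ℝ} (hr : 0 ≤ r) (n m : ℕ) :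
    Gr (fun x x' => (1 + r * k x x' / n) ^ m) := by
  refine Gr.pow ?_ m
  refine ((Gr.const zero_le_one).add (h.smul (div_nonneg hr (Nat.cast_nonneg n)))).congr
    fun x x' => ?_
  ring

theorem Gr.sum_nonneg {V : Type} {k : V → V → ℝ} (h : Gr k) (X : Finset V) (φ : V → ℝ) :
    0 ≤ ∑ x ∈ X, ∑ x' ∈ X, φ x * φ x' * k x x' := by
  obtain ⟨ι, hι, c, g, hc, hg⟩ := h
  have e : ∑ x ∈ X, ∑ x' ∈ X, φ x * φ x' * k x x'
      = ∑ j, c j * ((∑ x ∈ X, φ x * g j x) * ∑ x' ∈ X, φ x' * g j x') := by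
    calc ∑ x ∈ X, ∑ x' ∈ X, φ x * φ x' * k x x'
        = ∑ x ∈ X, ∑ x' ∈ X, ∑ j, c j * ((φ x * g j x) * (φ x' * g j x')) := by
          refine Finset.sum_congr rfl fun x _ => Finset.sum_congr rfl fun x' _ => ?_
          rw [hg, Finset.mul_sum]
          exact Finset.sum_congr rfl fun y _ => by ring
      _ = ∑ x ∈ X, ∑ j, ∑ x' ∈ X, c j * ((φ x * g j x) * (φ x' * g j x')) :=
          Finset.sum_congr rfl fun x _ => Finset.sum_comm
      _ = ∑ j, ∑ x ∈ X, ∑ x' ∈ X, c j * ((φ x * g j x) * (φ x' * g j x')) := Finset.sum_comm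
      _ = _ := by
          refine Finset.sum_congr rfl fun j _ => ?_
          rw [Finset.sum_mul_sum, Finset.mul_sum]
          exact Finset.sum_congr rfl fun x _ => by rw [Finset.mul_sum]
  rw [e]
  exact Finset.sum_nonneg fun j _ => mul_nonneg (hc j) (mul_self_nonneg _)

/-- Gram form of a kernel given by a sum over a finset -/
theorem gr_of_finset {V : Type} (Y : Finset V) (nu : V → ℝ) (h0 : ∀ y ∈ Y, 0 ≤ nu y)
    (A : V → V → ℝ) : Gr (fun x x' => ∑ y ∈ Y, nu y * (A x y * A x' y)) := by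
  refine ⟨{y // y ∈ Y}, inferInstance, fun y => nu y.1, fun y x => A x y.1,
    fun y => h0 y.1 y.2, fun x x' => ?_⟩
  exact (Finset.sum_coe_sort Y (fun y => nu y * (A x y * A x' y))).symm

theorem gr_KR {V : Type} [DecidableEq V] (G : SimpleGraph V) [DecidableRel G.Adj]
    {Y : Finset V} {nu : V → ℝ} (h : IsProb Y nu) : Gr (KR G Y nu) :=
  (gr_of_finset Y nu (fun y _ => h.nonneg y) (fun x y => rI G x y - dR G Y nu x)).congr
    fun x x' => KR_eq G Y nu h x x'

theorem gr_KB {V : Type} [DecidableEq V] (G : SimpleGraph V) [DecidableRel G.Adj]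
    {Z : Finset V} {ze : V → ℝ} (h : IsProb Z ze) : Gr (KB G Z ze) :=
  (gr_of_finset Z ze (fun y _ => h.nonneg y) (fun x y => bI G x y - dB G Z ze x)).congr
    fun x x' => KB_eq G Z ze h x x'

/-- the test function in polynomial form, without its linear part, is a Gram kernel -/
theorem gr_test {V : Type} {k k' : V → V → ℝ} (h : Gr k) (h' : Gr k')
    {w0 w1 w2 om mu mu' : ℝ} (hw0 : 0 ≤ w0) (hw1 : 0 ≤ w1) (hw2 : 0 ≤ w2) (hom : 0 ≤ om)
    (hmu : 0 ≤ mu) (hmu' : 0 ≤ mu') (n : ℕ) :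
    Gr (fun x x' => w0 + w1 * k x x' + w2 * k' x x' +
      om * (k x x' * k' x x' * ((1 + mu * k x x' / n) ^ n * (1 + mu' * k' x x' / n) ^ n))) :=
  (((Gr.const hw0).add (h.smul hw1)).add (h'.smul hw2)).add
    (((h.mul h').mul ((h.one_add_pow hmu n n).mul (h'.one_add_pow hmu' n n))).smul hom)

end Pool.Agent.H20.RM
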